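import Pool.Agent.helper88.EF.Defs

/-! # Project EF, module RL: combination of the cases r1 - r18 -/

namespace Pool.Agent.helper88.EF

open Finset Pool.Agent.helper76.LP

/-- the statement `MDv (Gam D) L f` under a condition on `D` and `q` -/
def RL_st (P : ℕ → ℕ → Prop) : Prop :=
  ∀ (D q : ℕ) [NeZero D] (L : List ℕ) (ev : Prop) (f : (ZMod D)ˣ → ℤ), RHyp D q L ev f →
    P D q → MDv (Gam D) L f

/-- a number with prime factors `3, 5, 7` only, not divisible by `27, 25, 49` divides `315` -/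
theorem RL_dvd (n : ℕ) (hn : n ≠ 0) (hp : ∀ p : ℕ, p.Prime → p ∣ n → p = 3 ∨ p = 5 ∨ p = 7)
    (h27 : ¬ 27 ∣ n) (h25 : ¬ 25 ∣ n) (h49 : ¬ 49 ∣ n) : n ∣ 315 := by
  rw [← Nat.factorization_prime_le_iff_dvd hn (by norm_num)]
  intro p hpp
  by_cases hd : p ∣ n
  · rcases hp p hpp hd with rfl | rfl | rfl
    · have h1 : 2 ≤ Nat.factorization 315 3 :=
        ((Nat.Prime.pow_dvd_iff_le_factorization hpp (by norm_num)).1 (by norm_num : 3 ^ 2 ∣ 315))
      have h2 : ¬ 3 ≤ n.factorization 3 := by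
        intro h
        exact h27 ((Nat.Prime.pow_dvd_iff_le_factorization hpp hn).2 h)
      omega
    · have h1 : 1 ≤ Nat.factorization 315 5 :=
        ((Nat.Prime.pow_dvd_iff_le_factorization hpp (by norm_num)).1 (by norm_num : 5 ^ 1 ∣ 315))
      have h2 : ¬ 2 ≤ n.factorization 5 := by
        intro h
        exact h25 ((Nat.Prime.pow_dvd_iff_le_factorization hpp hn).2 h)
      omega
    · have h1 : 1 ≤ Nat.factorization 315 7 :=
        ((Nat.Prime.pow_dvd_iff_le_factorization hpp (by norm_num)).1 (by norm_num : 7 ^ 1 ∣ 315))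
      have h2 : ¬ 2 ≤ n.factorization 7 := by
        intro h
        exact h49 ((Nat.Prime.pow_dvd_iff_le_factorization hpp hn).2 h)
      omega
  · rw [Nat.factorization_eq_zero_of_not_dvd hd]
    exact Nat.zero_le _

/-- the divisors of `315` -/
theorem RL_div (n : ℕ) (h : n ∣ 315) : n = 1 ∨ n = 3 ∨ n = 5 ∨ n = 7 ∨ n = 9 ∨ n = 15 ∨ n = 21 ∨
    n = 35 ∨ n = 45 ∨ n = 63 ∨ n = 105 ∨ n = 315 := by
  have h1 : n ∈ Nat.divisors 315 := Nat.mem_divisors.2 ⟨h, by norm_num⟩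
  have h2 : Nat.divisors 315 = {1, 3, 5, 7, 9, 15, 21, 35, 45, 63, 105, 315} := by decide +kernel
  rw [h2] at h1
  simpa using h1

theorem RL_cases (D q : ℕ) [NeZero D] (hq : q.Prime) (hqD : q ∣ D) (h4 : D % 4 ≠ 2) (h11 : 11 ≤ q)
    (hpr : ∀ p ∈ D.primeFactors, p ≤ q)
    (h3 : D = 3 * q → 29 ≤ q) (h4' : D = 4 * q → 17 ≤ q) (h5 : D = 5 * q → 17 ≤ q) :
    (q * q ∣ D) ∨ (¬ q * q ∣ D ∧
      ((4 ∣ D ∧ D ≠ 4 * q ∧ D ≠ 12 * q) ∨ D = 12 * q ∨ D = q ∨ (17 ≤ q ∧ D = 4 * q) ∨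
      (29 ≤ q ∧ D = 3 * q) ∨ (17 ≤ q ∧ Odd D ∧ D ≠ q ∧ D ≠ 3 * q) ∨
      (Odd D ∧ ((∃ r : ℕ, r.Prime ∧ 5 ≤ r ∧ r * r ∣ D) ∨ 27 ∣ D)) ∨
      (13 ≤ q ∧ Odd D ∧ 11 ∣ D ∧ ¬ 11 * 11 ∣ D) ∨
      (Odd D ∧ 9 ∣ D ∧ 7 ∣ D ∧ ¬ 7 * 7 ∣ D) ∨ D = 9 * q ∨ D = 45 * q ∨ D = 7 * q ∨ D = 21 * q ∨
      D = 35 * q ∨ D = 15 * q ∨ D = 105 * q)) := by
  by_cases hqq : q * q ∣ D
  · exact Or.inl hqq
  refine Or.inr ⟨hqq, ?_⟩
  by_cases hf : 4 ∣ D
  · by_cases h1 : D = 4 * q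
    · exact Or.inr (Or.inr (Or.inr (Or.inl ⟨h4' h1, h1⟩)))
    · by_cases h2 : D = 12 * q
      · exact Or.inr (Or.inl h2)
      · exact Or.inl ⟨hf, h1, h2⟩
  have hodd : Odd D := by
    rw [Nat.odd_iff]
    omega
  by_cases e1 : D = q
  · exact Or.inr (Or.inr (Or.inl e1))
  by_cases e3 : D = 3 * q
  · exact Or.inr (Or.inr (Or.inr (Or.inr (Or.inl ⟨h3 e3, e3⟩))))
  by_cases h17 : 17 ≤ q
  · exact Or.inr (Or.inr (Or.inr (Or.inr (Or.inr (Or.inl ⟨h17, hodd, e1, e3⟩)))))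
  by_cases h8 : (∃ r : ℕ, r.Prime ∧ 5 ≤ r ∧ r * r ∣ D) ∨ 27 ∣ D
  · exact Or.inr (Or.inr (Or.inr (Or.inr (Or.inr (Or.inr (Or.inl ⟨hodd, h8⟩))))))
  have h8a : ∀ r : ℕ, r.Prime → 5 ≤ r → ¬ r * r ∣ D := fun r a b c => h8 (Or.inl ⟨r, a, b, c⟩)
  have h8b : ¬ 27 ∣ D := fun c => h8 (Or.inr c)
  have hq13 : q = 11 ∨ q = 13 := by
    have a1 : q ≠ 12 := by rintro rfl; norm_num at hq
    have a2 : q ≠ 14 := by rintro rfl; norm_num at hq
    have a3 : q ≠ 15 := by rintro rfl; norm_num at hq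
    have a4 : q ≠ 16 := by rintro rfl; norm_num at hq
    omega
  by_cases h9 : 13 ≤ q ∧ 11 ∣ D
  · exact Or.inr (Or.inr (Or.inr (Or.inr (Or.inr (Or.inr (Or.inr (Or.inl
      ⟨h9.1, hodd, h9.2, h8a 11 (by norm_num) (by norm_num)⟩)))))))
  by_cases h10 : 9 ∣ D ∧ 7 ∣ D
  · exact Or.inr (Or.inr (Or.inr (Or.inr (Or.inr (Or.inr (Or.inr (Or.inr (Or.inl
      ⟨hodd, h10.1, h10.2, h8a 7 (by norm_num) (by norm_num)⟩))))))))
  obtain ⟨n, hn⟩ := hqD
  have hD0 : D ≠ 0 := NeZero.ne D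
  have hn0 : n ≠ 0 := by
    rintro rfl
    simp at hn
    exact hD0 hn
  have hnD : n ∣ D := ⟨q, by rw [hn, mul_comm]⟩
  have hn315 : n ∣ 315 := by
    refine RL_dvd n hn0 ?_ (fun h => h8b (h.trans hnD))
      (fun h => h8a 5 (by norm_num) le_rfl ((by norm_num : 5 * 5 ∣ 25).trans (h.trans hnD)))
      (fun h => h8a 7 (by norm_num) (by norm_num)
        ((by norm_num : 7 * 7 ∣ 49).trans (h.trans hnD)))
    intro p hp hpn
    have hpD : p ∣ D := hpn.trans hnD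
    have hpq : p ≤ q := hpr p (Nat.mem_primeFactors.2 ⟨hp, hpD, hD0⟩)
    have hp13 : p ≤ 13 := by omega
    have hpne : p ≠ q := by
      rintro rfl
      apply hqq
      rw [hn]
      exact Nat.mul_dvd_mul_left p hpn
    have hp2 : p ≠ 2 := by
      rintro rfl
      rw [Nat.odd_iff] at hodd
      omega
    have hp11 : p ≠ 11 := by
      rintro rfl
      rcases hq13 with h | h
      · exact hpne h.symm
      · exact h9 ⟨by omega, hpD⟩
    have hp13' : p ≠ 13 := by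
      rintro rfl
      rcases hq13 with h | h
      · omega
      · exact hpne h.symm
    have b1 : p ≠ 0 := hp.ne_zero
    have b2 : p ≠ 1 := hp.ne_one
    have b4 : p ≠ 4 := by rintro rfl; norm_num at hp
    have b6 : p ≠ 6 := by rintro rfl; norm_num at hp
    have b8 : p ≠ 8 := by rintro rfl; norm_num at hp
    have b9 : p ≠ 9 := by rintro rfl; norm_num at hp
    have b10 : p ≠ 10 := by rintro rfl; norm_num at hp
    have b12 : p ≠ 12 := by rintro rfl; norm_num at hp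
    omega
  have hnq : D = n * q := by rw [hn, mul_comm]
  rcases RL_div n hn315 with h | h | h | h | h | h | h | h | h | h | h | h <;> subst h
  · exact absurd (by simpa using hnq) e1
  · exact absurd hnq e3
  · exact absurd (h5 hnq) h17
  · right; right; right; right; right; right; right; right; right; right; right; left; exact hnq
  · right; right; right; right; right; right; right; right; right; left; exact hnq
  · right; right; right; right; right; right; right; right; right; right; right; right; right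
    right; left; exact hnq
  · right; right; right; right; right; right; right; right; right; right; right; right; left
    exact hnq
  · right; right; right; right; right; right; right; right; right; right; right; right; right
    left; exact hnq
  · right; right; right; right; right; right; right; right; right; right; left; exact hnq
  · exact absurd ⟨(by norm_num : 9 ∣ 63).trans hnD, (by norm_num : 7 ∣ 63).trans hnD⟩ h10
  · right; right; right; right; right; right; right; right; right; right; right; right; right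
    right; right; exact hnq
  · exact absurd ⟨(by norm_num : 9 ∣ 315).trans hnD, (by norm_num : 7 ∣ 315).trans hnD⟩ h10

/-- RL from the cases -/
theorem rl_of
    (r1 : RL_st fun D q => 7 ≤ q ∧ q * q ∣ D)
    (r2 : RL_st fun D q => 11 ≤ q ∧ 4 ∣ D ∧ ¬ q * q ∣ D ∧ D ≠ 4 * q ∧ D ≠ 12 * q)
    (r3 : RL_st fun D q => 5 ≤ q ∧ D = 12 * q)
    (r4 : RL_st fun D q => D = q)
    (r5 : RL_st fun D q => 17 ≤ q ∧ D = 4 * q)
    (r6 : RL_st fun D q => 29 ≤ q ∧ D = 3 * q)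
    (r7 : RL_st fun D q => 17 ≤ q ∧ Odd D ∧ ¬ q * q ∣ D ∧ D ≠ q ∧ D ≠ 3 * q)
    (r8 : RL_st fun D q => 11 ≤ q ∧ Odd D ∧ ¬ q * q ∣ D ∧
      ((∃ r : ℕ, r.Prime ∧ 5 ≤ r ∧ r * r ∣ D) ∨ 27 ∣ D))
    (r9 : RL_st fun D q => 13 ≤ q ∧ Odd D ∧ ¬ q * q ∣ D ∧ 11 ∣ D ∧ ¬ 11 * 11 ∣ D)
    (r10 : RL_st fun D q => 11 ≤ q ∧ Odd D ∧ ¬ q * q ∣ D ∧ 9 ∣ D ∧ 7 ∣ D ∧ ¬ 7 * 7 ∣ D)
    (r11 : RL_st fun D q => 11 ≤ q ∧ D = 9 * q)
    (r12 : RL_st fun D q => 11 ≤ q ∧ D = 45 * q)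
    (r13 : RL_st fun D q => 11 ≤ q ∧ D = 7 * q)
    (r14 : RL_st fun D q => 11 ≤ q ∧ D = 21 * q)
    (r15 : RL_st fun D q => 11 ≤ q ∧ D = 35 * q)
    (r16 : RL_st fun D q => 11 ≤ q ∧ D = 15 * q)
    (r17 : RL_st fun D q => 11 ≤ q ∧ D = 105 * q)
    (D q : ℕ) [NeZero D] (L : List ℕ) (ev : Prop) (f : (ZMod D)ˣ → ℤ)
    (h : RHyp D q L ev f) (h11 : 11 ≤ q) (hpr : ∀ p ∈ D.primeFactors, p ≤ q)
    (h3 : D = 3 * q → 29 ≤ q) (h4 : D = 4 * q → 17 ≤ q) (h5 : D = 5 * q → 17 ≤ q) :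
    MDv (Gam D) L f := by
  have hqD : q ∣ D := by
    have : q ∈ (q :: L).toFinset := by simp
    rw [h.hL] at this
    exact Nat.dvd_of_mem_primeFactors this
  rcases RL_cases D q h.hq hqD h.h4 h11 hpr h3 h4 h5 with c | ⟨hqq, c⟩
  · exact r1 D q L ev f h ⟨by omega, c⟩
  · rcases c with c | c | c | c | c | c | c | c | c | c | c | c | c | c | c | c
    · exact r2 D q L ev f h ⟨h11, c.1, hqq, c.2⟩
    · exact r3 D q L ev f h ⟨by omega, c⟩
    · exact r4 D q L ev f h c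
    · exact r5 D q L ev f h c
    · exact r6 D q L ev f h c
    · exact r7 D q L ev f h ⟨c.1, c.2.1, hqq, c.2.2⟩
    · exact r8 D q L ev f h ⟨h11, c.1, hqq, c.2⟩
    · exact r9 D q L ev f h ⟨c.1, c.2.1, hqq, c.2.2⟩
    · exact r10 D q L ev f h ⟨h11, c.1, hqq, c.2⟩
    · exact r11 D q L ev f h ⟨h11, c⟩
    · exact r12 D q L ev f h ⟨h11, c⟩
    · exact r13 D q L ev f h ⟨h11, c⟩
    · exact r14 D q L ev f h ⟨h11, c⟩
    · exact r15 D q L ev f h ⟨h11, c⟩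
    · exact r16 D q L ev f h ⟨h11, c⟩
    · exact r17 D q L ev f h ⟨h11, c⟩

end Pool.Agent.helper88.EF
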