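import Pool.Agent.helper70.EF.RL
import Pool.Agent.helper33.EF.RA
import Pool.Agent.helper33.EF.RC
import Pool.Agent.helper78.EF.RB
import Pool.Agent.helper78.EF.RD
import Pool.Agent.helper13.EF.RE
import Pool.Agent.helper1.EF.RH
import Pool.Agent.helper1.EF.RI
import Pool.Agent.helper18.EF.RF
import Pool.Agent.helper18.EF.RG

/-! # Project EF, module RL: the statement `rl` from the cases r1 - r17 -/


namespace Pool.Agent.helper88.EF

open Finset Pool.Agent.helper76.LP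

theorem rl (D q : ℕ) [NeZero D] (L : List ℕ) (ev : Prop) (f : (ZMod D)ˣ → ℤ)
    (h : RHyp D q L ev f) (h11 : 11 ≤ q) (hpr : ∀ p ∈ D.primeFactors, p ≤ q)
    (h3 : D = 3 * q → 29 ≤ q) (h4 : D = 4 * q → 17 ≤ q) (h5 : D = 5 * q → 17 ≤ q) :
    MDv (Gam D) L f :=
  rl_of
    (fun D q _ L ev f h c => r1 D q L ev f h c.1 c.2)
    (fun D q _ L ev f h c => r2 D q L ev f h c.1 c.2.1 c.2.2.1 c.2.2.2.1 c.2.2.2.2)
    (fun D q _ L ev f h c => r3 D q L ev f h c.1 c.2)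
    (fun D q _ L ev f h c => r4 D q L ev f h c)
    (fun D q _ L ev f h c => r5 D q L ev f h c.1 c.2)
    (fun D q _ L ev f h c => r6 D q L ev f h c.1 c.2)
    (fun D q _ L ev f h c => r7 D q L ev f h c.1 c.2.1 c.2.2.1 c.2.2.2.1 c.2.2.2.2)
    (fun D q _ L ev f h c => r8 D q L ev f h c.1 c.2.1 c.2.2.1 c.2.2.2)
    (fun D q _ L ev f h c => r9 D q L ev f h c.1 c.2.1 c.2.2.1 c.2.2.2.1 c.2.2.2.2)
    (fun D q _ L ev f h c => r10 D q L ev f h c.1 c.2.1 c.2.2.1 c.2.2.2.1 c.2.2.2.2.1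
      c.2.2.2.2.2)
    (fun D q _ L ev f h c => r11 D q L ev f h c.1 c.2)
    (fun D q _ L ev f h c => r12 D q L ev f h c.1 c.2)
    (fun D q _ L ev f h c => r13 D q L ev f h c.1 c.2)
    (fun D q _ L ev f h c => r14 D q L ev f h c.1 c.2)
    (fun D q _ L ev f h c => r15 D q L ev f h c.1 c.2)
    (fun D q _ L ev f h c => r16 D q L ev f h c.1 c.2)
    (fun D q _ L ev f h c => r17 D q L ev f h c.1 c.2)
    D q L ev f h h11 hpr h3 h4 h5

end Pool.Agent.helper88.EF
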